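import Pool.Agent.Lib_helper33.ASM.Stmts

/-!
# Module CLEAR of MP_818a86_pr (helper1)
-/

set_option autoImplicit false
set_option linter.unusedSectionVars false
set_option linter.unusedVariables false

open scoped BigOperators

namespace Pool.Agent.Lib_helper33.ASM

namespace Clear

section det

variable {ι : Type*} {E : Type*} [MetricSpace E] {x : ι → E} {ω : Cfg ι}
  {O c1 c2 : E} {s r t : ℝ}

/-- the site `z` is in one of the two balls -/
def Nr (x : ι → E) (c1 c2 : E) (s : ℝ) (z : ι) : Prop :=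
  dist (x z) c1 ≤ s / 50 ∨ dist (x z) c2 ≤ s / 50

/-- the pair `i, j` blocks a site near `i` -/
def Hc (x : ι → E) (c1 c2 : E) (s : ℝ) (i j : ι) : Prop :=
  ∃ z, Nr x c1 c2 s z ∧ dist (x z) (x i) < dist (x i) (x j) ∧ dist (x z) (x i) ≤ 16 / 25 * s

/-- the points to be erased -/
def SS (x : ι → E) (ω : Cfg ι) (c1 c2 : E) (s r : ℝ) : Set ι :=
  {i | ∃ j, mt x ω i j ∧ r ≤ dist (x i) (x j) ∧ (Hc x c1 c2 s i j ∨ Hc x c1 c2 s j i)}

/-- geometric position of the two centres -/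
structure Cg (O c1 c2 : E) (s : ℝ) : Prop where
  pos : 0 < s
  d1 : dist c1 O = s / 5
  d2 : dist c2 O = 4 / 5 * s
  d12 : dist c1 c2 = 3 / 5 * s

lemma Cg.one (h : Cg O c1 c2 s) {y : E} (hy : dist y c1 ≤ s / 50) :
    9 / 50 * s ≤ dist y O ∧ dist y O ≤ 11 / 50 * s := by
  have h1 := dist_triangle y c1 O
  have h2 := dist_triangle c1 y O
  rw [dist_comm c1 y] at h2
  rw [h.d1] at h1 h2
  constructor <;> linarith

lemma Cg.two (h : Cg O c1 c2 s) {y : E} (hy : dist y c2 ≤ s / 50) :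
    39 / 50 * s ≤ dist y O ∧ dist y O ≤ 41 / 50 * s := by
  have h1 := dist_triangle y c2 O
  have h2 := dist_triangle c2 y O
  rw [dist_comm c2 y] at h2
  rw [h.d2] at h1 h2
  constructor <;> linarith

lemma Cg.pair (h : Cg O c1 c2 s) {y y' : E} (hy : dist y c1 ≤ s / 50) (hy' : dist y' c2 ≤ s / 50) :
    14 / 25 * s ≤ dist y y' ∧ dist y y' ≤ 16 / 25 * s := by
  have h1 := dist_triangle4 y c1 c2 y'
  have h2 := dist_triangle4 c1 y y' c2
  rw [dist_comm c1 y] at h2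
  rw [dist_comm c2 y'] at h1
  rw [h.d12] at h1 h2
  constructor <;> linarith

lemma Cg.nr (h : Cg O c1 c2 s) {z : ι} (hz : Nr x c1 c2 s z) :
    9 / 50 * s ≤ dist (x z) O ∧ dist (x z) O ≤ 41 / 50 * s := by
  have hs := h.pos
  rcases hz with hz | hz
  · have := h.one hz
    constructor <;> linarith [this.1, this.2]
  · have := h.two hz
    constructor <;> linarith [this.1, this.2]

variable [Finite ι]

lemma ss_closed (hx : Gen x) {i k : ι} (hi : i ∈ SS x ω c1 c2 s r) (hk : mt x ω i k) :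
    k ∈ SS x ω c1 c2 s r := by
  obtain ⟨j, hj, hr, hH⟩ := hi
  obtain rfl := mt_unique hx hj hk
  exact ⟨i, mt_symm hj, by rwa [dist_comm], hH.symm⟩

lemma ss_un (hx : Gen x) {i : ι} (hi : i ∈ SS x ω c1 c2 s r) : Un x ω r i := by
  obtain ⟨j, hj, hr, hH⟩ := hi
  refine ⟨mt_occ hj, ?_⟩
  rintro ⟨k, hk, hlt⟩
  obtain rfl := mt_unique hx hj hk
  exact absurd hlt (not_lt.2 hr)

/-- one end of a blocking pair -/
lemma ss_ann_aux (hx : Gen x) (h : Cg O c1 c2 s) {o : ι} (ho : x o = O) (ht : 3 * s ≤ t)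
    (hF : FR x ω t o) {i j : ι} (hij : mt x ω i j) (hH : Hc x c1 c2 s i j) :
    (s / 25 ≤ dist (x i) O ∧ dist (x i) O ≤ 4 * s) ∧
    (s / 25 ≤ dist (x j) O ∧ dist (x j) O ≤ 4 * s) := by
  have hs := h.pos
  obtain ⟨z, hz, h1, h2⟩ := hH
  have hzO := h.nr hz
  have a1 : dist (x i) O ≤ dist (x z) (x i) + dist (x z) O := by
    rw [dist_comm (x z) (x i)]; exact dist_triangle _ _ _
  have a2 : dist (x i) O ≤ 73 / 50 * s := by linarith [hzO.2]
  have a3 : dist (x i) (x j) ≤ dist (x i) O := by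
    obtain ⟨k, hk, hk2⟩ := hF.2 i (mt_occ hij) (by rw [ho, dist_comm]; linarith)
    obtain rfl := mt_unique hx hij hk
    rw [ho, dist_comm O] at hk2
    exact hk2
  have a4 : dist (x z) O ≤ dist (x z) (x i) + dist (x i) O := dist_triangle _ _ _
  have a5 : dist (x j) O ≤ dist (x i) (x j) + dist (x i) O := by
    rw [dist_comm (x i) (x j)]; exact dist_triangle _ _ _
  have a6 : dist (x j) (x i) ≤ dist (x j) O := by
    obtain ⟨k, hk, hk2⟩ := hF.2 j (mt_occ (mt_symm hij)) (by rw [ho, dist_comm]; linarith)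
    obtain rfl := mt_unique hx (mt_symm hij) hk
    rw [ho, dist_comm O] at hk2
    exact hk2
  have a7 : dist (x i) O ≤ dist (x j) (x i) + dist (x j) O := by
    rw [dist_comm (x j) (x i)]; exact dist_triangle _ _ _
  refine ⟨⟨?_, ?_⟩, ⟨?_, ?_⟩⟩ <;> linarith [hzO.1, hzO.2]

lemma ss_ann (hx : Gen x) (h : Cg O c1 c2 s) {o : ι} (ho : x o = O) (ht : 3 * s ≤ t)
    (hF : FR x ω t o) {i : ι} (hi : i ∈ SS x ω c1 c2 s r) :
    s / 25 ≤ dist (x i) O ∧ dist (x i) O ≤ 4 * s := by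
  obtain ⟨j, hj, -, hH | hH⟩ := hi
  · exact (ss_ann_aux hx h ho ht hF hj hH).1
  · exact (ss_ann_aux hx h ho ht hF (mt_symm hj) hH).2

/-- the new configuration: `o` is still free -/
lemma fr_er (hx : Gen x) {o : ι} (hF : FR x ω t o) :
    FR x (er ω (SS x ω c1 c2 s r)) t o := by
  refine ⟨?_, fun y hy hd => ?_⟩
  · by_cases h : o ∈ SS x ω c1 c2 s r
    · exact er_apply_mem h
    · rw [er_apply_not_mem h]; exact hF.1
  · have hyS : y ∉ SS x ω c1 c2 s r := fun h => hy (er_apply_mem h)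
    rw [er_apply_not_mem hyS] at hy
    obtain ⟨k, hk, hk2⟩ := hF.2 y hy hd
    have hkS : k ∉ SS x ω c1 c2 s r := fun h => hyS (ss_closed hx h (mt_symm hk))
    exact ⟨k, (mt_er_closed _ (fun s hs k hk => ss_closed hx hs hk) y k hyS hkS).2 hk, hk2⟩

/-- the insertable pairs -/
def PP (x : ι → E) (ω : Cfg ι) (c1 c2 : E) (s r : ℝ) : Prop :=
  ∀ z z', dist (x z) c1 ≤ s / 50 → dist (x z') c2 ≤ s / 50 → FMR x ω r z → FMR x ω r z' →
    ω z = none ∧ ω z' = none ∧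
    (∀ y, ω y ≠ none → dist (x z) (x y) < dist (x z) (x z') →
      ∃ k, mt x ω y k ∧ dist (x y) (x k) ≤ dist (x z) (x y)) ∧
    (∀ y, ω y ≠ none → dist (x z') (x y) < dist (x z) (x z') →
      ∃ k, mt x ω y k ∧ dist (x y) (x k) ≤ dist (x z') (x y))

lemma same_ss (hx : Gen x) : Same x (er ω (SS x ω c1 c2 s r)) ω r :=
  same_er fun _ hs => ss_un hx hs

lemma fmr_er (hx : Gen x) (z : ι) :
    FMR x (er ω (SS x ω c1 c2 s r)) r z ↔ FMR x ω r z := fmr_congr (same_ss hx) z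

lemma fm_er (hx : Gen x) (z : ι) :
    FM x (er ω (SS x ω c1 c2 s r)) r z ↔ FM x ω r z := by
  refine fm_congr (same_ss hx) (fun y hy => ?_) z
  have h1 : y ∉ SS x ω c1 c2 s r := by
    intro h
    obtain ⟨k, hk, -⟩ := hy
    exact mt_occ hk (er_apply_mem h)
  exact er_apply_not_mem h1

lemma pp_er_aux (hx : Gen x) (h : Cg O c1 c2 s) {o : ι} (ho : x o = O) (ht : 3 * s ≤ t)
    (hr : 0 < r) (hF : FR x ω t o) {z : ι} (hz : Nr x c1 c2 s z) (hM : FMR x ω r z) :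
    er ω (SS x ω c1 c2 s r) z = none := by
  have hs := h.pos
  by_contra hne
  have hzS : z ∉ SS x ω c1 c2 s r := fun h => hne (er_apply_mem h)
  rw [er_apply_not_mem hzS] at hne
  have hzO := h.nr hz
  obtain ⟨k, hk, hk2⟩ := hF.2 z hne (by rw [ho, dist_comm]; linarith [hzO.2])
  rcases lt_or_ge (dist (x z) (x k)) r with h1 | h1
  · exact hM.1 ⟨k, hk, h1⟩
  · refine hzS ⟨k, hk, h1, Or.inl ⟨z, hz, ?_, ?_⟩⟩
    · rw [dist_self]; linarith
    · rw [dist_self]; positivity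

lemma pp_er_aux2 (hx : Gen x) (h : Cg O c1 c2 s) {o : ι} (ho : x o = O) (ht : 3 * s ≤ t)
    (hF : FR x ω t o) {z : ι} (hz : Nr x c1 c2 s z) (hM : FMR x ω r z) {y : ι}
    (hy : er ω (SS x ω c1 c2 s r) y ≠ none) (hd : dist (x z) (x y) < 16 / 25 * s) :
    ∃ k, mt x (er ω (SS x ω c1 c2 s r)) y k ∧ dist (x y) (x k) ≤ dist (x z) (x y) := by
  have hs := h.pos
  have hyS : y ∉ SS x ω c1 c2 s r := fun h => hy (er_apply_mem h)
  have hy' := hy
  rw [er_apply_not_mem hyS] at hy'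
  have hzO := h.nr hz
  have hyO : dist (x y) O ≤ dist (x z) (x y) + dist (x z) O := by
    rw [dist_comm (x z) (x y)]; exact dist_triangle _ _ _
  obtain ⟨k, hk, hk2⟩ := hF.2 y hy' (by rw [ho, dist_comm]; linarith [hzO.2])
  have hkS : k ∉ SS x ω c1 c2 s r := fun h => hyS (ss_closed hx h (mt_symm hk))
  refine ⟨k, (mt_er_closed _ (fun s hs k hk => ss_closed hx hs hk) y k hyS hkS).2 hk, ?_⟩
  rcases lt_or_ge (dist (x y) (x k)) r with h1 | h1
  · exact hM.2 y k hk h1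
  · by_contra hlt
    push Not at hlt
    exact hyS ⟨k, hk, h1, Or.inl ⟨z, hz, hlt, hd.le⟩⟩

lemma pp_er (hx : Gen x) (h : Cg O c1 c2 s) {o : ι} (ho : x o = O) (ht : 3 * s ≤ t)
    (hr : 0 < r) (hF : FR x ω t o) : PP x (er ω (SS x ω c1 c2 s r)) c1 c2 s r := by
  intro z z' hz hz' hM hM'
  rw [fmr_er hx] at hM hM'
  have hp := h.pair hz hz'
  refine ⟨pp_er_aux hx h ho ht hr hF (Or.inl hz) hM, pp_er_aux hx h ho ht hr hF (Or.inr hz') hM',
    fun y hy hd => ?_, fun y hy hd => ?_⟩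
  · exact pp_er_aux2 hx h ho ht hF (Or.inl hz) hM hy (by linarith [hp.2])
  · exact pp_er_aux2 hx h ho ht hF (Or.inr hz') hM' hy (by linarith [hp.2])

/-- properties of the configuration with the inserted pair -/
structure Dec (x : ι → E) (ω : Cfg ι) (t : ℝ) (o z z' : ι) : Prop where
  fb : FB x ω t o
  nfr : ¬ FR x ω t o
  bad : ω z ≠ none ∧ dist (x o) (x z) < t ∧
    ¬ ∃ k, mt x ω z k ∧ dist (x z) (x k) ≤ dist (x o) (x z)
  only : ∀ y, ω y ≠ none → dist (x o) (x y) < t →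
    (¬ ∃ k, mt x ω y k ∧ dist (x y) (x k) ≤ dist (x o) (x y)) → y = z
  part : mt x ω z z'

lemma Dec.unique (hx : Gen x) {o z z' w w' : ι} (h : Dec x ω t o z z') (h' : Dec x ω t o w w') :
    z = w ∧ z' = w' := by
  have h1 : z = w := h'.only z h.bad.1 h.bad.2.1 h.bad.2.2
  subst h1
  exact ⟨rfl, mt_unique hx h.part h'.part⟩

lemma ins_same (ω : Cfg ι) (z : ι) (b : Bool) : ins ω z b z = some b := by simp [ins]

lemma ins_ne (ω : Cfg ι) {z i : ι} (b : Bool) (h : i ≠ z) : ins ω z b i = ω i := by simp [ins, h]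

lemma dec_ins (hx : Gen x) (h : Cg O c1 c2 s) {o : ι} (ho : x o = O) (ht : 3 * s ≤ t)
    (hF : FR x ω t o) (hP : PP x ω c1 c2 s r) {z z' : ι} (hz : dist (x z) c1 ≤ s / 50)
    (hz' : dist (x z') c2 ≤ s / 50) (hM : FMR x ω r z) (hM' : FMR x ω r z') :
    Dec x (ins (ins ω z false) z' true) t o z z' := by
  have hs := h.pos
  have hp := h.pair hz hz'
  have hzO := h.one hz
  have hzO' := h.two hz'
  have hne : z ≠ z' := by
    rintro rfl
    rw [dist_self] at hp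
    linarith [hp.1]
  have hoz : o ≠ z := by
    rintro rfl
    rw [ho, dist_self] at hzO
    linarith [hzO.1]
  have hoz' : o ≠ z' := by
    rintro rfl
    rw [ho, dist_self] at hzO'
    linarith [hzO'.1]
  obtain ⟨h1, h2, h3, h4⟩ := hP z z' hz hz' hM hM'
  have hmt := mt_ins_pair hx h1 h2 hne (b := false) (b' := true) (Or.inr rfl)
    (fun y hy _ hd => h3 y hy hd) (fun y hy _ hd => h4 y hy hd)
  set ω₂ := ins (ins ω z false) z' true with hω₂
  have ez : ω₂ z = some false := by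
    rw [hω₂, ins_ne _ _ hne, ins_same]
  have ez' : ω₂ z' = some true := by
    rw [hω₂, ins_same]
  have eo : ∀ y, y ≠ z → y ≠ z' → ω₂ y = ω y := by
    intro y hy hy'
    rw [hω₂, ins_ne _ _ hy', ins_ne _ _ hy]
  have mzz : mt x ω₂ z z' := (hmt z z').2 (Or.inr (Or.inl ⟨rfl, rfl⟩))
  -- every point near `o` except `z` is matched soon
  have key : ∀ y, ω₂ y ≠ none → dist (x o) (x y) < t → y ≠ z →
      ∃ k, mt x ω₂ y k ∧ dist (x y) (x k) ≤ dist (x o) (x y) := by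
    intro y hy hd hyz
    by_cases hyz' : y = z'
    · subst hyz'
      refine ⟨z, mt_symm mzz, ?_⟩
      rw [dist_comm (x y) (x z), ho, dist_comm O]
      linarith [hp.2, hzO'.1]
    · rw [eo y hyz hyz'] at hy
      obtain ⟨k, hk, hk2⟩ := hF.2 y hy hd
      exact ⟨k, (hmt y k).2 (Or.inl hk), hk2⟩
  have hbad : ¬ ∃ k, mt x ω₂ z k ∧ dist (x z) (x k) ≤ dist (x o) (x z) := by
    rintro ⟨k, hk, hk2⟩
    obtain rfl := mt_unique hx hk mzz
    rw [ho, dist_comm O] at hk2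
    linarith [hp.1, hzO.2]
  have hzt : dist (x o) (x z) < t := by
    rw [ho, dist_comm O]; linarith [hzO.2]
  have hzn : ω₂ z ≠ none := by rw [ez]; simp
  refine ⟨⟨?_, ?_⟩, ?_, ⟨hzn, hzt, hbad⟩, ?_, mzz⟩
  · rw [eo o hoz hoz']; exact hF.1
  · intro y hy hd
    refine key y (by rw [hy]; simp) hd ?_
    rintro rfl
    rw [ez] at hy
    simp at hy
  · intro hFR
    exact hbad (hFR.2 z hzn hzt)
  · intro y hy hd hn
    by_contra hyz
    exact hn (key y hy hd hyz)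

end det

section prob

variable {ι : Type*} [Fintype ι] [DecidableEq ι] {E : Type*} [MetricSpace E] {x : ι → E}
  {a p : ℝ}

/-- exclusive events -/
lemma sum_ind_le {κ : Type*} (K : Finset κ) (A : κ → Prop)
    (h : ∀ k ∈ K, ∀ k' ∈ K, A k → A k' → k = k') : ∑ k ∈ K, ind (A k) ≤ ind (∃ k ∈ K, A k) := by
  by_cases hA : ∃ k ∈ K, A k
  · obtain ⟨k, hk, hks⟩ := hA
    rw [ind_true ⟨k, hk, hks⟩, Finset.sum_eq_single_of_mem k hk, ind_true hks]
    intro k' hk' hne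
    exact ind_false fun h' => hne (h k' hk' k hk h' hks)
  · rw [ind_false hA]
    refine le_of_eq (Finset.sum_eq_zero fun k hk => ind_false fun h' => hA ⟨k, hk, h'⟩)

/-- the double insertion -/
lemma pairs_le (h : Par a p) (hx : Gen x) (P : Cfg ι → ι → ι → Prop) {t : ℝ} {o : ι}
    (hne : ∀ ω z z', P ω z z' → z ≠ z' ∧ ω z = none ∧ ω z' = none)
    (hdec : ∀ ω z z', P ω z z' → Dec x (ins (ins ω z false) z' true) t o z z') :
    a ^ 2 * (p * (1 - p)) * ex a p (fun ω => ∑ z', cnt fun z => P ω z z') ≤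
      pr a p (fun ω => FB x ω t o ∧ ¬ FR x ω t o) := by
  have ha := h.a_pos
  have hp := h.p_pos
  have hp1 := h.p_lt
  set P₂ : Cfg ι → ι → Prop := fun ω₁ z' => ∃ ω z, P ω z z' ∧ ω₁ = ins ω z false with hP₂
  have step1 : ∀ z', a * (1 - p) * ex a p (fun ω => cnt fun z => P ω z z') ≤
      pr a p (fun ω => P₂ ω z') := by
    intro z'
    have := insert_ineq h false (fun ω z => P ω z z') (fun ω => P₂ ω z')
      (fun ω z hz => (hne ω z z' hz).2.1) (fun ω z hz => ⟨ω, z, hz, rfl⟩)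
      (fun ω z ω' w hz hw hins => by
        have d1 := hdec ω z z' hz
        have d2 := hdec ω' w z' hw
        rw [← hins] at d2
        exact (d1.unique hx d2).1)
    simpa using this
  have step2 : a * p * ex a p (fun ω => cnt fun z' => P₂ ω z') ≤
      pr a p (fun ω => FB x ω t o ∧ ¬ FR x ω t o) := by
    have := insert_ineq h true (fun ω z' => P₂ ω z') (fun ω => FB x ω t o ∧ ¬ FR x ω t o)
      (fun ω₁ z' hz => by
        obtain ⟨ω, z, hz, rfl⟩ := hz
        obtain ⟨h1, h2, h3⟩ := hne ω z z' hz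
        rw [ins_ne _ _ h1.symm]; exact h3)
      (fun ω₁ z' hz => by
        obtain ⟨ω, z, hz, rfl⟩ := hz
        have d := hdec ω z z' hz
        exact ⟨d.fb, d.nfr⟩)
      (fun ω₁ z' ω₂ w' hz hw hins => by
        obtain ⟨ω, z, hz, rfl⟩ := hz
        obtain ⟨ω', w, hw, rfl⟩ := hw
        have d1 := hdec ω z z' hz
        have d2 := hdec ω' w w' hw
        rw [← hins] at d2
        exact (d1.unique hx d2).2)
    simpa using this
  rw [ex_cnt] at step2
  rw [ex_sum]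
  calc a ^ 2 * (p * (1 - p)) * ∑ z', ex a p (fun ω => cnt fun z => P ω z z')
      = a * p * ∑ z', (a * (1 - p) * ex a p (fun ω => cnt fun z => P ω z z')) := by
        rw [← Finset.mul_sum]; ring
    _ ≤ a * p * ∑ z', pr a p (fun ω => P₂ ω z') :=
        mul_le_mul_of_nonneg_left (Finset.sum_le_sum fun z' _ => step1 z') (by positivity)
    _ ≤ _ := step2

/-- good scale, abstractly -/
structure Ge (x : ι → E) (a : ℝ) (O c1 c2 : E) (s r η lam : ℝ) (ω : Cfg ι) : Prop where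
  g1 : η ≤ a * cnt fun z => dist (x z) c1 ≤ s / 50 ∧ FMR x ω r z
  g2 : η ≤ a * cnt fun z => dist (x z) c2 ≤ s / 50 ∧ FMR x ω r z
  g3 : (a * cnt fun z => s / 25 ≤ dist (x z) O ∧ dist (x z) O ≤ 4 * s ∧ FM x ω r z) ≤ lam

lemma cnt_congr {A B : ι → Prop} (h : ∀ s, A s ↔ B s) : cnt A = cnt B := by
  have : A = B := by funext s; exact propext (h s)
  rw [this]

lemma ge_er (hx : Gen x) {O c1 c2 : E} {s r η lam : ℝ} {ω : Cfg ι}
    (h : Ge x a O c1 c2 s r η lam ω) :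
    Ge x a O c1 c2 s r η lam (er ω (SS x ω c1 c2 s r)) := by
  refine ⟨?_, ?_, ?_⟩
  · rw [cnt_congr (fun z => and_congr_right fun _ => fmr_er hx z)]; exact h.g1
  · rw [cnt_congr (fun z => and_congr_right fun _ => fmr_er hx z)]; exact h.g2
  · rw [cnt_congr (fun z => and_congr_right fun _ => and_congr_right fun _ => fm_er hx z)]
    exact h.g3

/-- Step A: making the pairs insertable -/
lemma erase_step (hpar : Par a p) (hx : Gen x) {o : ι} {c1 c2 : E} {s r t η lam : ℝ}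
    (hC : Cg (x o) c1 c2 s) (ht : 3 * s ≤ t) (hr : 0 < r) :
    pr a p (fun ω => FR x ω t o ∧ Ge x a (x o) c1 c2 s r η lam ω) ≤
      Real.exp (2 * lam) * pr a p (fun ω => (FR x ω t o ∧ Ge x a (x o) c1 c2 s r η lam ω) ∧
        PP x ω c1 c2 s r) := by
  classical
  set A : Cfg ι → Prop := fun ω => FR x ω t o ∧ Ge x a (x o) c1 c2 s r η lam ω with hA
  set S : Cfg ι → Finset ι := fun ω => Finset.univ.filter fun i => i ∈ SS x ω c1 c2 s r with hS
  set F : Cfg ι → Finset ι := fun ω => Finset.univ.filter fun z =>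
    s / 25 ≤ dist (x z) (x o) ∧ dist (x z) (x o) ≤ 4 * s ∧ FM x ω r z with hF
  have hSc : ∀ ω, (↑(S ω) : Set ι) = SS x ω c1 c2 s r := by
    intro ω; ext i; simp [hS]
  have key := erase_cost hpar (fun ω => ind (A ω)) (fun ω => ind (A ω ∧ PP x ω c1 c2 s r))
    (fun ω => ind_nonneg _) S F (by
      intro ω hω
      have hAω : A ω := by
        by_contra hn
        rw [ind_false hn] at hω
        exact lt_irrefl _ hω
      rw [hSc]
      refine ⟨?_, ?_, ?_⟩
      · rw [ind_true hAω, ind_true]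
        exact ⟨⟨fr_er hx hAω.1, ge_er hx hAω.2⟩, pp_er hx hC rfl ht hr hAω.1⟩
      · intro i hi
        have hi' : i ∈ SS x ω c1 c2 s r := by simpa [hS] using hi
        have h1 := ss_ann hx hC rfl ht hAω.1 hi'
        have h2 := (ss_un hx hi').fm hx
        simp only [hF, Finset.mem_filter, Finset.mem_univ, true_and]
        exact ⟨h1.1, h1.2, (fm_er hx i).2 h2⟩
      · intro i hi
        have hi' : i ∈ SS x ω c1 c2 s r := by simpa [hS] using hi
        exact (ss_un hx hi').1)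
  refine key.trans ?_
  unfold pr
  rw [← ex_mul_left]
  refine ex_mono hpar fun ω => ?_
  by_cases hω : A ω ∧ PP x ω c1 c2 s r
  · rw [ind_true hω, one_mul, mul_one]
    refine Real.exp_le_exp.2 ?_
    have h3 := hω.1.2.g3
    have h4 : (cnt fun z => s / 25 ≤ dist (x z) (x o) ∧ dist (x z) (x o) ≤ 4 * s ∧ FM x ω r z) =
        ((F ω).card : ℝ) := by
      unfold cnt
      simp only [hF]
      congr 1
      congr 1
      ext z
      simp
    rw [h4] at h3
    nlinarith [h3]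
  · rw [ind_false hω, zero_mul, mul_zero]

/-- the pair `z, z'` is insertable at the scale `s` -/
def Pr (x : ι → E) (a : ℝ) (t : ℝ) (o : ι) (c1 c2 : E) (s r η lam : ℝ) (ω : Cfg ι) (z z' : ι) :
    Prop :=
  ((FR x ω t o ∧ Ge x a (x o) c1 c2 s r η lam ω) ∧ PP x ω c1 c2 s r) ∧
    (dist (x z) c1 ≤ s / 50 ∧ FMR x ω r z) ∧ (dist (x z') c2 ≤ s / 50 ∧ FMR x ω r z')

lemma pr_dec (hx : Gen x) {o : ι} {c1 c2 : E} {s r t η lam : ℝ} (hC : Cg (x o) c1 c2 s)
    (ht : 3 * s ≤ t) {ω : Cfg ι} {z z' : ι} (h : Pr x a t o c1 c2 s r η lam ω z z') :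
    Dec x (ins (ins ω z false) z' true) t o z z' :=
  dec_ins hx hC rfl ht h.1.1.1 h.1.2 h.2.1.1 h.2.2.1 h.2.1.2 h.2.2.2

lemma pr_ne {o : ι} {c1 c2 : E} {s r t η lam : ℝ} (hC : Cg (x o) c1 c2 s)
    {ω : Cfg ι} {z z' : ι} (h : Pr x a t o c1 c2 s r η lam ω z z') :
    z ≠ z' ∧ ω z = none ∧ ω z' = none := by
  obtain ⟨h1, h2, -, -⟩ := h.1.2 z z' h.2.1.1 h.2.2.1 h.2.1.2 h.2.2.2
  refine ⟨?_, h1, h2⟩
  rintro rfl
  have hp := hC.pair h.2.1.1 h.2.2.1
  rw [dist_self] at hp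
  linarith [hp.1, hC.pos]

/-- Step B: on a good scale there are many pairs -/
lemma many_pairs (hpar : Par a p) {o : ι} {c1 c2 : E} {s r t η lam : ℝ} (hη : 0 < η) :
    η ^ 2 * pr a p (fun ω => (FR x ω t o ∧ Ge x a (x o) c1 c2 s r η lam ω) ∧ PP x ω c1 c2 s r) ≤
      a ^ 2 * ex a p (fun ω => ∑ z', cnt fun z => Pr x a t o c1 c2 s r η lam ω z z') := by
  unfold pr
  rw [← ex_mul_left, ← ex_mul_left]
  refine ex_mono hpar fun ω => ?_
  by_cases hω : (FR x ω t o ∧ Ge x a (x o) c1 c2 s r η lam ω) ∧ PP x ω c1 c2 s r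
  · have e1 : (∑ z', cnt fun z => Pr x a t o c1 c2 s r η lam ω z z') =
        (cnt fun z => dist (x z) c1 ≤ s / 50 ∧ FMR x ω r z) *
          cnt fun z => dist (x z) c2 ≤ s / 50 ∧ FMR x ω r z := by
      rw [cnt_eq_sum (fun z => dist (x z) c2 ≤ s / 50 ∧ FMR x ω r z), Finset.mul_sum]
      refine Finset.sum_congr rfl fun z' _ => ?_
      rw [cnt_eq_sum, cnt_eq_sum, Finset.sum_mul]
      refine Finset.sum_congr rfl fun z _ => ?_
      unfold Pr
      rw [ind_and, ind_true hω, one_mul, ind_and]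
    rw [e1, ind_true hω, mul_one]
    have g1 := hω.1.2.g1
    have g2 := hω.1.2.g2
    calc η ^ 2 = η * η := sq η
      _ ≤ (a * cnt fun z => dist (x z) c1 ≤ s / 50 ∧ FMR x ω r z) *
          (a * cnt fun z => dist (x z) c2 ≤ s / 50 ∧ FMR x ω r z) :=
          mul_le_mul g1 g2 hη.le (hη.le.trans g1)
      _ = _ := by ring
  · rw [ind_false hω, mul_zero]
    exact mul_nonneg (sq_nonneg a) (Finset.sum_nonneg fun z' _ => cnt_nonneg _)

/-- everything together, for abstract scales -/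
lemma clear_abs (hpar : Par a p) (hx : Gen x) {o : ι} (K : Finset ℕ) (c1 c2 : ℕ → E)
    (s r : ℕ → ℝ) {t η lam : ℝ} (hη : 0 < η) (hC : ∀ k ∈ K, Cg (x o) (c1 k) (c2 k) (s k))
    (ht : ∀ k ∈ K, 3 * s k ≤ t) (hr : ∀ k ∈ K, 0 < r k)
    (hsep : ∀ k ∈ K, ∀ k' ∈ K, k < k' → 2 * s k ≤ s k') :
    p * (1 - p) * η ^ 2 * Real.exp (-(2 * lam)) *
      ∑ k ∈ K, pr a p (fun ω => FR x ω t o ∧
        Ge x a (x o) (c1 k) (c2 k) (s k) (r k) η lam ω) ≤
      pr a p (fun ω => FB x ω t o) - pr a p (fun ω => FR x ω t o) := by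
  have ha := hpar.a_pos
  have hp := hpar.p_pos
  have hp1 := hpar.p_lt
  set P : Cfg ι → ι → ι → Prop := fun ω z z' => ∃ k ∈ K,
    Pr x a t o (c1 k) (c2 k) (s k) (r k) η lam ω z z' with hP
  -- Step A
  have hA : Real.exp (-(2 * lam)) * ∑ k ∈ K, pr a p (fun ω => FR x ω t o ∧
        Ge x a (x o) (c1 k) (c2 k) (s k) (r k) η lam ω) ≤
      ∑ k ∈ K, pr a p (fun ω => (FR x ω t o ∧ Ge x a (x o) (c1 k) (c2 k) (s k) (r k) η lam ω) ∧
        PP x ω (c1 k) (c2 k) (s k) (r k)) := by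
    rw [Finset.mul_sum]
    refine Finset.sum_le_sum fun k hk => ?_
    have h1 := erase_step (η := η) (lam := lam) hpar hx (hC k hk) (ht k hk) (hr k hk)
    calc _ ≤ Real.exp (-(2 * lam)) * (Real.exp (2 * lam) * pr a p (fun ω => (FR x ω t o ∧
          Ge x a (x o) (c1 k) (c2 k) (s k) (r k) η lam ω) ∧ PP x ω (c1 k) (c2 k) (s k) (r k))) :=
          mul_le_mul_of_nonneg_left h1 (Real.exp_pos _).le
      _ = _ := by rw [← mul_assoc, ← Real.exp_add]; simp
  -- Step B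
  have hB : η ^ 2 * ∑ k ∈ K, pr a p (fun ω => (FR x ω t o ∧
        Ge x a (x o) (c1 k) (c2 k) (s k) (r k) η lam ω) ∧ PP x ω (c1 k) (c2 k) (s k) (r k)) ≤
      a ^ 2 * ∑ k ∈ K, ex a p (fun ω => ∑ z', cnt fun z =>
        Pr x a t o (c1 k) (c2 k) (s k) (r k) η lam ω z z') := by
    rw [Finset.mul_sum, Finset.mul_sum]
    exact Finset.sum_le_sum fun k _ => many_pairs hpar hη
  -- Step C
  have hCC : ∑ k ∈ K, ex a p (fun ω => ∑ z', cnt fun z =>
        Pr x a t o (c1 k) (c2 k) (s k) (r k) η lam ω z z') ≤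
      ex a p (fun ω => ∑ z', cnt fun z => P ω z z') := by
    rw [← ex_sum]
    refine ex_mono hpar fun ω => ?_
    rw [Finset.sum_comm]
    refine Finset.sum_le_sum fun z' _ => ?_
    simp only [cnt_eq_sum]
    rw [Finset.sum_comm]
    refine Finset.sum_le_sum fun z _ => ?_
    refine sum_ind_le K _ fun k hk k' hk' h h' => ?_
    have a1 := (hC k hk).one h.2.1.1
    have a2 := (hC k' hk').one h'.2.1.1
    have b1 := (hC k hk).pos
    have b2 := (hC k' hk').pos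
    rcases lt_trichotomy k k' with hlt | heq | hgt
    · have := hsep k hk k' hk' hlt
      linarith [a1.2, a2.1]
    · exact heq
    · have := hsep k' hk' k hk hgt
      linarith [a1.1, a2.2]
  -- Step D, E
  have hD := pairs_le hpar hx P (t := t) (o := o)
    (fun ω z z' h => by obtain ⟨k, hk, h⟩ := h; exact pr_ne (hC k hk) h)
    (fun ω z z' h => by obtain ⟨k, hk, h⟩ := h; exact pr_dec hx (hC k hk) (ht k hk) h)
  -- the difference
  have hE : pr a p (fun ω => FB x ω t o ∧ ¬ FR x ω t o) =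
      pr a p (fun ω => FB x ω t o) - pr a p (fun ω => FR x ω t o) := by
    unfold pr
    rw [← ex_sub]
    congr 1
    funext ω
    by_cases h1 : FR x ω t o
    · rw [ind_false (fun h => h.2 h1), ind_true h1, ind_true h1.fb, sub_self]
    · by_cases h2 : FB x ω t o
      · rw [ind_true ⟨h2, h1⟩, ind_true h2, ind_false h1, sub_zero]
      · rw [ind_false (fun h => h2 h.1), ind_false h2, ind_false h1, sub_zero]
  rw [← hE]
  refine le_trans ?_ hD
  have hpp : 0 ≤ p * (1 - p) := mul_nonneg hp.le (by linarith)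
  calc p * (1 - p) * η ^ 2 * Real.exp (-(2 * lam)) *
      ∑ k ∈ K, pr a p (fun ω => FR x ω t o ∧
        Ge x a (x o) (c1 k) (c2 k) (s k) (r k) η lam ω)
      = p * (1 - p) * η ^ 2 * (Real.exp (-(2 * lam)) *
      ∑ k ∈ K, pr a p (fun ω => FR x ω t o ∧
        Ge x a (x o) (c1 k) (c2 k) (s k) (r k) η lam ω)) := by ring
    _ ≤ p * (1 - p) * η ^ 2 * ∑ k ∈ K, pr a p (fun ω => (FR x ω t o ∧
          Ge x a (x o) (c1 k) (c2 k) (s k) (r k) η lam ω) ∧ PP x ω (c1 k) (c2 k) (s k) (r k)) :=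
        mul_le_mul_of_nonneg_left hA (mul_nonneg hpp (sq_nonneg η))
    _ = p * (1 - p) * (η ^ 2 * ∑ k ∈ K, pr a p (fun ω => (FR x ω t o ∧
          Ge x a (x o) (c1 k) (c2 k) (s k) (r k) η lam ω) ∧
            PP x ω (c1 k) (c2 k) (s k) (r k))) := by ring
    _ ≤ p * (1 - p) * (a ^ 2 * ∑ k ∈ K, ex a p (fun ω => ∑ z', cnt fun z =>
        Pr x a t o (c1 k) (c2 k) (s k) (r k) η lam ω z z')) :=
        mul_le_mul_of_nonneg_left hB hpp
    _ ≤ p * (1 - p) * (a ^ 2 * ex a p (fun ω => ∑ z', cnt fun z => P ω z z')) :=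
        mul_le_mul_of_nonneg_left (mul_le_mul_of_nonneg_left hCC (sq_nonneg a)) hpp
    _ = _ := by ring

end prob

lemma cg_of {d : ℕ} (O e : Sp d) (he : ‖e‖ = 1) {s : ℝ} (hs : 0 < s) :
    Cg O (O + (s / 5) • e) (O + (s * 4 / 5) • e) s := by
  refine ⟨hs, ?_, ?_, ?_⟩
  · rw [dist_eq_norm, add_sub_cancel_left, norm_smul, he, mul_one, Real.norm_eq_abs,
      abs_of_pos (by positivity)]
  · rw [dist_eq_norm, add_sub_cancel_left, norm_smul, he, mul_one, Real.norm_eq_abs,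
      abs_of_pos (by positivity)]
    ring
  · rw [dist_comm, dist_eq_norm, add_sub_add_left_eq_sub, ← sub_smul, norm_smul, he, mul_one,
      Real.norm_eq_abs, abs_of_pos (by linarith)]
    ring

end Clear

open Clear in
/-- Module CLEAR -/
theorem stmtCLEAR {d : ℕ} {p : ℝ} (hp0 : 0 < p) (hp1 : p < 1) : StmtCLEAR d p := by
  intro e he l k₀ η lam hη hlam h5 hl 𝓜 ha ha2 o n
  have hpar : Par 𝓜.a p := ⟨ha, ha2, hp0, hp1⟩
  have h2 : ∀ k : ℕ, (0 : ℝ) < 2 ^ (10 * k) := fun k => by positivity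
  have hmono : ∀ {k k' : ℕ}, k < k' → 1024 * (2 : ℝ) ^ (10 * k) ≤ 2 ^ (10 * k') := by
    intro k k' hk
    have : (2 : ℝ) ^ (10 * (k + 1)) ≤ 2 ^ (10 * k') :=
      pow_le_pow_right₀ (by norm_num) (by omega)
    calc 1024 * (2 : ℝ) ^ (10 * k) = 2 ^ (10 * (k + 1)) := by
          rw [mul_add, pow_add]; norm_num; ring
      _ ≤ _ := this
  have key := clear_abs (a := 𝓜.a) (p := p) hpar 𝓜.gen (o := o) (Finset.Icc k₀ n)
    (fun k => 𝓜.x o + ((2 : ℝ) ^ (10 * k) / 5) • e)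
    (fun k => 𝓜.x o + ((2 : ℝ) ^ (10 * k) * 4 / 5) • e)
    (fun k => (2 : ℝ) ^ (10 * k)) (fun k => (2 : ℝ) ^ (10 * k) / 2 ^ l)
    (t := 2 ^ (10 * (n + 1))) (η := η) (lam := lam) hη
    (fun k _ => cg_of _ e he (h2 k))
    (fun k hk => by
      have := hmono (Nat.lt_succ_of_le (Finset.mem_Icc.1 hk).2)
      have h3 := h2 k
      simp only [Nat.succ_eq_add_one] at this
      linarith)
    (fun k _ => by positivity)
    (fun k _ k' _ hkk => by
      have := hmono hkk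
      have h3 := h2 k
      linarith)
  have hGd : ∀ k, (fun ω => FR 𝓜.x ω (2 ^ (10 * (n + 1))) o ∧ Ge 𝓜.x 𝓜.a (𝓜.x o)
      (𝓜.x o + ((2 : ℝ) ^ (10 * k) / 5) • e) (𝓜.x o + ((2 : ℝ) ^ (10 * k) * 4 / 5) • e)
      ((2 : ℝ) ^ (10 * k)) ((2 : ℝ) ^ (10 * k) / 2 ^ l) η lam ω) =
      (fun ω => FR 𝓜.x ω (2 ^ (10 * (n + 1))) o ∧ Gd 𝓜 e l η lam (𝓜.x o) k ω) := by
    intro k
    funext ω
    refine propext (and_congr_right fun _ => ⟨fun h => ⟨h.g1, h.g2, h.g3⟩,
      fun h => ⟨h.1, h.2.1, h.2.2⟩⟩)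
  simp only [hGd] at key
  exact key

end Pool.Agent.Lib_helper33.ASM
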